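import Pool.Agent.H39.TO.Targets

/-! Row TAB of the board `toh_modules` (problem MP_397744_co): the inequalities for `p = 7`. -/

set_option autoImplicit false

namespace Pool.Agent.H7.TOH

open Pool.Agent.H39.TO

/-- the cubic equation of `cos (2 π / 7)` -/
theorem cubic_c : 8 * Real.cos (2 * Real.pi / 7) ^ 3 + 4 * Real.cos (2 * Real.pi / 7) ^ 2 -
    4 * Real.cos (2 * Real.pi / 7) - 1 = 0 := by
  have h1 : Real.cos (4 * (2 * Real.pi / 7)) = Real.cos (3 * (2 * Real.pi / 7)) := by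
    rw [← Real.cos_two_pi_sub]
    congr 1
    ring
  have h2 : Real.cos (4 * (2 * Real.pi / 7)) =
      2 * (2 * Real.cos (2 * Real.pi / 7) ^ 2 - 1) ^ 2 - 1 := by
    rw [← Real.cos_two_mul, ← Real.cos_two_mul]
    congr 1
    ring
  have h3 : Real.cos (3 * (2 * Real.pi / 7)) =
      4 * Real.cos (2 * Real.pi / 7) ^ 3 - 3 * Real.cos (2 * Real.pi / 7) := Real.cos_three_mul _
  have hne : Real.cos (2 * Real.pi / 7) < 1 := by
    rw [← Real.cos_zero]
    refine Real.cos_lt_cos_of_nonneg_of_le_pi le_rfl ?_ ?_ <;> nlinarith [Real.pi_pos]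
  have h4 : (Real.cos (2 * Real.pi / 7) - 1) * (8 * Real.cos (2 * Real.pi / 7) ^ 3 +
      4 * Real.cos (2 * Real.pi / 7) ^ 2 - 4 * Real.cos (2 * Real.pi / 7) - 1) = 0 := by
    rw [h2, h3] at h1
    linear_combination h1
  rcases mul_eq_zero.1 h4 with h | h
  · linarith
  · exact h

/-- the cubic equation of `cos (π / 7)` -/
theorem cubic_C : 8 * Real.cos (Real.pi / 7) ^ 3 - 4 * Real.cos (Real.pi / 7) ^ 2 -
    4 * Real.cos (Real.pi / 7) + 1 = 0 := by
  have h1 : Real.cos (4 * (Real.pi / 7)) = - Real.cos (3 * (Real.pi / 7)) := by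
    rw [← Real.cos_pi_sub]
    congr 1
    ring
  have h2 : Real.cos (4 * (Real.pi / 7)) =
      2 * (2 * Real.cos (Real.pi / 7) ^ 2 - 1) ^ 2 - 1 := by
    rw [← Real.cos_two_mul, ← Real.cos_two_mul]
    congr 1
    ring
  have h3 : Real.cos (3 * (Real.pi / 7)) =
      4 * Real.cos (Real.pi / 7) ^ 3 - 3 * Real.cos (Real.pi / 7) := Real.cos_three_mul _
  have hne : 0 < Real.cos (Real.pi / 7) := by
    refine Real.cos_pos_of_mem_Ioo ⟨?_, ?_⟩ <;> nlinarith [Real.pi_pos]
  have h4 : (Real.cos (Real.pi / 7) + 1) * (8 * Real.cos (Real.pi / 7) ^ 3 -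
      4 * Real.cos (Real.pi / 7) ^ 2 - 4 * Real.cos (Real.pi / 7) + 1) = 0 := by
    rw [h2, h3] at h1
    linear_combination h1
  rcases mul_eq_zero.1 h4 with h | h
  · linarith
  · exact h

theorem C_bounds : 9 / 10 < Real.cos (Real.pi / 7) ∧ Real.cos (Real.pi / 7) < 901 / 1000 := by
  have h := cubic_C
  have hhalf : 1 / 2 < Real.cos (Real.pi / 7) := by
    rw [← Real.cos_pi_div_three]
    refine Real.cos_lt_cos_of_nonneg_of_le_pi (by positivity) ?_ ?_ <;> nlinarith [Real.pi_pos]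
  set C := Real.cos (Real.pi / 7)
  constructor
  · by_contra hc
    rw [not_lt] at hc
    have h1 : (C - 9 / 10) * (8 * C ^ 2 + 32 / 10 * C - 112 / 100) ≤ 0 :=
      mul_nonpos_of_nonpos_of_nonneg (by linarith) (by nlinarith)
    nlinarith
  · by_contra hc
    rw [not_lt] at hc
    have h1 : 0 ≤ (C - 901 / 1000) * (8 * C ^ 2 + 3208 / 1000 * C - 1109592 / 1000000) :=
      mul_nonneg (by linarith) (by nlinarith)
    nlinarith

theorem pf_TAB : T_TAB := by
  intro τ hτ hCτ h2 h3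
  have hc2 : c2 7 = Real.cos (2 * Real.pi / 7) := by simp [c2]
  rw [hc2] at h2 h3 ⊢
  have hP := cubic_c
  have hQ := cubic_C
  obtain ⟨hC1, hC2⟩ := C_bounds
  have hcC : Real.cos (2 * Real.pi / 7) = 2 * Real.cos (Real.pi / 7) ^ 2 - 1 := by
    rw [← Real.cos_two_mul]
    congr 1
    ring
  set C := Real.cos (Real.pi / 7)
  set c := Real.cos (2 * Real.pi / 7)
  clear_value C c
  have hc1 : 62 / 100 < c := by rw [hcC]; nlinarith
  have hc3 : c < 6237 / 10000 := by rw [hcC]; nlinarith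
  obtain ⟨u, hu⟩ : ∃ u : ℝ, u = 1 + 2 * τ := ⟨_, rfl⟩
  have hτu : τ = (u - 1) / 2 := by rw [hu]; ring
  subst hτu
  have hu0 : 0 ≤ u := by linarith
  have hCu : C * u < 1 := by
    have : 2 * ((u - 1) / 2) + 1 = u := by ring
    rwa [this] at hCτ
  have hu12 : u < 112 / 100 := by
    by_contra hcon
    rw [not_lt] at hcon
    have : 9 / 10 * (112 / 100) ≤ C * u := mul_le_mul hC1.le hcon (by norm_num) (by linarith)
    linarith
  have e1 : (2 * c - 1 + (4 * c ^ 2 - 1)) * (4 * c ^ 2 - 1) ^ 2 = 2 * c - 1 := by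
    linear_combination (8 * c ^ 3 - 4 * c + 1) * hP
  have e2 : (1 - (4 * c ^ 2 - 1)) ^ 2 * (1 + (4 * c ^ 2 - 1)) * (2 * c - 1 + (4 * c ^ 2 - 1)) =
      2 * c - 1 := by
    linear_combination (32 * c ^ 5 - 32 * c ^ 3 + 4 * c ^ 2 + 6 * c - 1) * hP
  obtain ⟨w, hw⟩ : ∃ w : ℝ, w = 4 * c ^ 2 - 1 := ⟨_, rfl⟩
  rw [← hw] at e1 e2
  have hw1 : 53 / 100 < w := by rw [hw]; nlinarith
  have hw2 : w < 56 / 100 := by rw [hw]; nlinarith
  by_cases hu1 : u = 0
  · left; rw [hu1]; norm_num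
  by_cases hu2 : u = 1
  · right; left; rw [hu2]; norm_num
  have hupos : 0 < u := lt_of_le_of_ne hu0 (Ne.symm hu1)
  have g2 : 2 * c - 1 ≤ (2 * c - 1 + u) * u ^ 2 := by
    rcases h2 with h | h
    · exact absurd (by linarith) hu1
    · calc 2 * c - 1 ≤ _ := h
        _ = _ := by ring
  have g3 : 2 * c - 1 ≤ (1 - u) ^ 2 * (1 + u) * (2 * c - 1 + u) := by
    rcases h3 with h | h
    · exact absurd (by linarith) hu2
    · calc 2 * c - 1 ≤ _ := h
        _ = _ := by ring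
  -- `w ≤ u`
  have hwu : w ≤ u := by
    by_contra hcon
    rw [not_le] at hcon
    have h4 : (w - u) * (w ^ 2 + w * u + u ^ 2 + (2 * c - 1) * (w + u)) =
        (2 * c - 1 + w) * w ^ 2 - (2 * c - 1 + u) * u ^ 2 := by ring
    have h5 : 0 < w ^ 2 + w * u + u ^ 2 + (2 * c - 1) * (w + u) := by
      have : 0 < 2 * c - 1 := by linarith
      have hwp : 0 < w := by linarith
      positivity
    have h5' := mul_pos (sub_pos.2 hcon) h5
    rw [h4] at h5'
    linarith
  have hu3 : u < 1 := by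
    by_contra hcon
    rw [not_lt] at hcon
    have h6 : (1 - u) ^ 2 ≤ 144 / 10000 := by
      have h6' : |1 - u| ≤ 12 / 100 := abs_le.2 ⟨by linarith, by linarith⟩
      calc (1 - u) ^ 2 = |1 - u| ^ 2 := (sq_abs _).symm
        _ ≤ (12 / 100) ^ 2 := pow_le_pow_left₀ (abs_nonneg _) h6' 2
        _ = 144 / 10000 := by norm_num
    have h7 : (1 + u) * (2 * c - 1 + u) ≤ 3 := by
      calc (1 + u) * (2 * c - 1 + u) ≤ 212 / 100 * (137 / 100) :=
            mul_le_mul (by linarith) (by linarith) (by linarith) (by norm_num)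
        _ ≤ 3 := by norm_num
    have h8 : 0 ≤ (1 + u) * (2 * c - 1 + u) := by
      have : 0 < 2 * c - 1 := by linarith
      positivity
    have h9 : (1 - u) ^ 2 * (1 + u) * (2 * c - 1 + u) ≤ 144 / 10000 * 3 := by
      rw [mul_assoc]
      exact mul_le_mul h6 h7 h8 (by norm_num)
    linarith
  -- `u ≤ w`
  have huw : u = w := by
    refine le_antisymm ?_ hwu
    by_contra hcon
    rw [not_le] at hcon
    obtain ⟨t, ht⟩ : ∃ t : ℝ, t = 1 - u := ⟨_, rfl⟩
    obtain ⟨s, hs⟩ : ∃ s : ℝ, s = 1 - w := ⟨_, rfl⟩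
    have ht0 : 0 < t := by linarith
    have hts : t < s := by linarith
    have hs1 : s < 47 / 100 := by linarith
    have hs2 : 44 / 100 < s := by linarith
    have hut : u = 1 - t := by linarith
    have hws : w = 1 - s := by linarith
    rw [hut] at g3
    rw [hws] at e2
    have h10 : (s - t) * (4 * c * (s + t) - (2 + 2 * c) * (s ^ 2 + s * t + t ^ 2) +
        (s + t) * (s ^ 2 + t ^ 2)) =
        (1 - (1 - s)) ^ 2 * (1 + (1 - s)) * (2 * c - 1 + (1 - s)) -
        (1 - (1 - t)) ^ 2 * (1 + (1 - t)) * (2 * c - 1 + (1 - t)) := by ring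
    have h11 : 0 < 4 * c * (s + t) - (2 + 2 * c) * (s ^ 2 + s * t + t ^ 2) +
        (s + t) * (s ^ 2 + t ^ 2) := by
      have h12 : s ^ 2 + s * t + t ^ 2 ≤ s ^ 2 + 2 * (s * t) := by
        have := mul_pos ht0 (sub_pos.2 hts)
        linarith [mul_sub t s t, mul_comm s t, sq t]
      have h13 : 0 ≤ (s + t) * (s ^ 2 + t ^ 2) := by
        have : 0 < s := by linarith
        positivity
      have h14 : (2 + 2 * c) * (s ^ 2 + s * t + t ^ 2) ≤ (2 + 2 * c) * (s ^ 2 + 2 * (s * t)) :=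
        mul_le_mul_of_nonneg_left h12 (by linarith)
      have hs0 : 0 < s := by linarith
      have h15 : (2 + 2 * c) * (s ^ 2 + 2 * (s * t)) ≤ 325 / 100 * (s ^ 2 + 2 * (s * t)) :=
        mul_le_mul_of_nonneg_right (by linarith) (by positivity)
      have h16 : 248 / 100 * (s + t) ≤ 4 * c * (s + t) :=
        mul_le_mul_of_nonneg_right (by linarith) (by linarith)
      have h17 : s ^ 2 ≤ 47 / 100 * s := by
        rw [sq]
        exact mul_le_mul_of_nonneg_right hs1.le hs0.le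
      have h18 : s * t ≤ 47 / 100 * t := mul_le_mul_of_nonneg_right hs1.le ht0.le
      linarith
    have h19 := mul_pos (sub_pos.2 hts) h11
    rw [h10] at h19
    linarith
  right; right
  rw [huw, hw]
  refine ⟨?_, ?_, ?_⟩
  · rw [hcC]
    linear_combination (2 * C ^ 2 + C - 1 / 2) * hQ
  · have : (4 * c ^ 2 - 1 - 1) / 2 * (1 + 2 * c) + 1 + c = c + 1 / 2 := by
      linear_combination (1 / 2) * hP
    rw [this]; linarith
  · have : 4 * c * ((4 * c ^ 2 - 1 - 1) / 2) + 2 * c + 1 = -4 * c ^ 2 + 2 * c + 2 := by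
      linear_combination hP
    rw [this]
    have h20 : c ^ 2 ≤ (6237 / 10000) ^ 2 := pow_le_pow_left₀ (by linarith) hc3.le 2
    have h21 : 3 / 2 ≤ -4 * c ^ 2 + 2 * c + 2 := by linarith
    have h22 : 9 / 10 * (3 / 2) ≤ C * (-4 * c ^ 2 + 2 * c + 2) :=
      mul_le_mul hC1.le h21 (by norm_num) (by linarith)
    linarith

end Pool.Agent.H7.TOH
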